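import Mathlib

/-!
# Infinitely many deficient KL-primitive numbers

For every large `a` there are one or two primes `p (, q)` larger than `2 ^ (a + 1)` such that
`n = 2 ^ a * p` or `n = 2 ^ a * p * q` is deficient with `KL n ≥ 0` (Bertrand's postulate is
enough), and every divisor `d` of `n` with `KL d ≥ 0` is divisible by `2 ^ a`.  The least such
divisor is deficient, KL-primitive and at least `2 ^ a`.
-/

namespace Pool.Agent.Results.MP_8dd099_nt.DeficientKLInfinite

/-- `KL n = ∑ d * log (d / (2 * φ(d)))`, the sum over the divisors `d` of `n`. -/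
noncomputable def KL (n : ℕ) : ℝ :=
  ∑ d ∈ n.divisors, (d : ℝ) * Real.log ((d : ℝ) / (2 * (Nat.totient d : ℝ)))

/-- `n` is KL-primitive: `KL n ≥ 0` and `KL d < 0` for every divisor `d < n` of `n`. -/
def KLPrimitive (n : ℕ) : Prop :=
  0 < n ∧ 0 ≤ KL n ∧ ∀ d : ℕ, d ∣ n → d < n → KL d < 0

/-- `g d = log (d / φ(d))`. -/
noncomputable def g (d : ℕ) : ℝ := Real.log ((d : ℝ) / (Nat.totient d : ℝ))

/-- `G m = ∑ d * log (d / φ(d))` over the divisors of `m`. -/
noncomputable def G (m : ℕ) : ℝ := ∑ d ∈ m.divisors, (d : ℝ) * g d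

lemma sum_divisors_mul_coprime {m n : ℕ} (h : m.Coprime n) (f : ℕ → ℝ) :
    ∑ d ∈ (m * n).divisors, f d = ∑ a ∈ m.divisors, ∑ b ∈ n.divisors, f (a * b) := by
  rw [Nat.divisors_mul, Finset.mul_def, Finset.sum_image h.mul_injOn_divisors,
    Finset.sum_product]

lemma KL_two_pow_mul (a m : ℕ) (hm : Odd m) :
    KL (2 ^ a * m) = ((2 : ℝ) ^ (a + 1) - 1) * G m - (∑ d ∈ m.divisors, (d : ℝ)) * Real.log 2 := by
  have hcop : (2 ^ a).Coprime m := Nat.Coprime.pow_left a (Nat.coprime_two_left.mpr hm)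
  unfold KL G
  rw [sum_divisors_mul_coprime hcop, Nat.sum_divisors_prime_pow Nat.prime_two,
    Finset.sum_range_succ']
  have h0 : ∀ e ∈ m.divisors, ((2 ^ 0 * e : ℕ) : ℝ) *
      Real.log (((2 ^ 0 * e : ℕ) : ℝ) / (2 * (Nat.totient (2 ^ 0 * e) : ℝ)))
      = (e : ℝ) * g e - (e : ℝ) * Real.log 2 := by
    intro e he
    have hepos : 0 < e := Nat.pos_of_mem_divisors he
    have hphi : (0 : ℝ) < (Nat.totient e : ℝ) := by
      exact_mod_cast Nat.totient_pos.mpr hepos
    have he' : (0 : ℝ) < (e : ℝ) := by exact_mod_cast hepos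
    rw [pow_zero, one_mul, g, Real.log_div he'.ne' (by positivity), Real.log_mul (by norm_num)
      hphi.ne', Real.log_div he'.ne' hphi.ne']
    ring
  have h1 : ∀ i ∈ Finset.range a, ∑ e ∈ m.divisors, ((2 ^ (i + 1) * e : ℕ) : ℝ) *
      Real.log (((2 ^ (i + 1) * e : ℕ) : ℝ) / (2 * (Nat.totient (2 ^ (i + 1) * e) : ℝ)))
      = (2 : ℝ) ^ (i + 1) * ∑ e ∈ m.divisors, (e : ℝ) * g e := by
    intro i _
    rw [Finset.mul_sum]
    apply Finset.sum_congr rfl
    intro e he
    have hepos : 0 < e := Nat.pos_of_mem_divisors he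
    have hodd : Odd e := hm.of_dvd_nat (Nat.dvd_of_mem_divisors he)
    have hc : (2 ^ (i + 1)).Coprime e := Nat.Coprime.pow_left _ (Nat.coprime_two_left.mpr hodd)
    have hphi : (0 : ℝ) < (Nat.totient e : ℝ) := by
      exact_mod_cast Nat.totient_pos.mpr hepos
    have he' : (0 : ℝ) < (e : ℝ) := by exact_mod_cast hepos
    have ht : (Nat.totient (2 ^ (i + 1) * e) : ℝ) = 2 ^ i * (Nat.totient e : ℝ) := by
      rw [Nat.totient_mul hc, Nat.totient_prime_pow Nat.prime_two (Nat.succ_pos i)]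
      simp
    rw [ht, g]
    have : (((2 ^ (i + 1) * e : ℕ) : ℝ) / (2 * (2 ^ i * (Nat.totient e : ℝ))))
        = (e : ℝ) / (Nat.totient e : ℝ) := by
      push_cast
      rw [pow_succ]
      field_simp
    rw [this]
    push_cast
    ring
  rw [Finset.sum_congr rfl h0, Finset.sum_congr rfl h1, ← Finset.sum_mul,
    Finset.sum_sub_distrib, ← Finset.sum_mul]
  have hgeom : ∑ i ∈ Finset.range a, (2 : ℝ) ^ (i + 1) = 2 ^ (a + 1) - 2 := by
    have := geom_sum_eq (show (2 : ℝ) ≠ 1 by norm_num) a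
    rw [Finset.sum_congr rfl (fun i _ => pow_succ (2 : ℝ) i), ← Finset.sum_mul, this]
    rw [pow_succ]
    ring
  rw [hgeom]
  ring

lemma g_prime {p : ℕ} (hp : p.Prime) : g p = Real.log ((p : ℝ) / ((p : ℝ) - 1)) := by
  unfold g
  rw [Nat.totient_prime hp, Nat.cast_sub hp.one_le]
  simp

lemma g_one : g 1 = 0 := by simp [g]

lemma G_one : G 1 = 0 := by simp [G, g_one]

lemma G_prime {p : ℕ} (hp : p.Prime) : G p = p * g p := by
  unfold G
  rw [hp.sum_divisors]
  simp [g_one]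

lemma g_mul {p q : ℕ} (hp : p.Prime) (hq : q.Prime) (hpq : p ≠ q) : g (p * q) = g p + g q := by
  have hc : p.Coprime q := (Nat.coprime_primes hp hq).mpr hpq
  have hp' : (0 : ℝ) < p := by exact_mod_cast hp.pos
  have hq' : (0 : ℝ) < q := by exact_mod_cast hq.pos
  have h1 : (0 : ℝ) < Nat.totient p := by exact_mod_cast Nat.totient_pos.mpr hp.pos
  have h2 : (0 : ℝ) < Nat.totient q := by exact_mod_cast Nat.totient_pos.mpr hq.pos
  unfold g
  rw [Nat.totient_mul hc]
  push_cast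
  rw [mul_div_mul_comm, Real.log_mul (by positivity) (by positivity)]

lemma G_mul {p q : ℕ} (hp : p.Prime) (hq : q.Prime) (hpq : p ≠ q) :
    G (p * q) = p * (1 + q) * g p + q * (1 + p) * g q := by
  have hc : p.Coprime q := (Nat.coprime_primes hp hq).mpr hpq
  unfold G
  rw [sum_divisors_mul_coprime hc, hp.sum_divisors, hq.sum_divisors, hq.sum_divisors]
  rw [g_mul hp hq hpq, mul_one, one_mul, mul_one, g_one]
  push_cast
  ring

lemma sigma_prime {p : ℕ} (hp : p.Prime) : ∑ d ∈ p.divisors, (d : ℝ) = p + 1 := by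
  rw [hp.sum_divisors]; simp

lemma sigma_mul {p q : ℕ} (hp : p.Prime) (hq : q.Prime) (hpq : p ≠ q) :
    ∑ d ∈ (p * q).divisors, (d : ℝ) = (p + 1) * (q + 1) := by
  have hc : p.Coprime q := (Nat.coprime_primes hp hq).mpr hpq
  rw [sum_divisors_mul_coprime hc, hp.sum_divisors, hq.sum_divisors, hq.sum_divisors]
  push_cast
  ring

lemma g_lower {p : ℕ} (hp : p.Prime) : 1 ≤ (p : ℝ) * g p := by
  have h2 : (2 : ℝ) ≤ p := by exact_mod_cast hp.two_le
  rw [g_prime hp]
  have hpos : (0 : ℝ) < (p : ℝ) / ((p : ℝ) - 1) := by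
    apply div_pos <;> linarith
  have h := Real.one_sub_inv_le_log_of_pos hpos
  have e : 1 - ((p : ℝ) / ((p : ℝ) - 1))⁻¹ = 1 / p := by
    rw [inv_div]
    field_simp
    ring
  rw [e] at h
  calc (1 : ℝ) = p * (1 / p) := by field_simp
    _ ≤ _ := by gcongr

lemma g_upper {p : ℕ} (hp : p.Prime) : (p : ℝ) * g p ≤ (p : ℝ) / ((p : ℝ) - 1) := by
  have h2 : (2 : ℝ) ≤ p := by exact_mod_cast hp.two_le
  rw [g_prime hp]
  have hpos : (0 : ℝ) < (p : ℝ) / ((p : ℝ) - 1) := by
    apply div_pos <;> linarith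
  have h := Real.log_le_sub_one_of_pos hpos
  have e : (p : ℝ) / ((p : ℝ) - 1) - 1 = 1 / ((p : ℝ) - 1) := by
    have : (p : ℝ) - 1 ≠ 0 := by linarith
    field_simp
    ring
  rw [e] at h
  calc (p : ℝ) * Real.log ((p : ℝ) / ((p : ℝ) - 1)) ≤ p * (1 / ((p : ℝ) - 1)) := by gcongr
    _ = _ := by ring

lemma log_two_lower : (0.69 : ℝ) < Real.log 2 := by
  have := Real.log_two_gt_d9; linarith

lemma log_two_upper : Real.log 2 < (0.7 : ℝ) := by
  have := Real.log_two_lt_d9; linarith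

lemma log_two_pos : (0 : ℝ) < Real.log 2 := by
  have := log_two_lower; linarith

/-- `KL (2 ^ b * r) < 0` for primes `r ≥ 2 ^ (b + 2)`. -/
lemma KL_neg_prime {b r : ℕ} (hr : r.Prime) (h : 2 ^ (b + 2) ≤ r) : KL (2 ^ b * r) < 0 := by
  have h4 : 4 ≤ r := by
    have : 4 ≤ 2 ^ (b + 2) := by
      rw [pow_add]
      have := Nat.one_le_two_pow (n := b)
      omega
    omega
  have hodd : Odd r := hr.odd_of_ne_two (by omega)
  rw [KL_two_pow_mul b r hodd, G_prime hr, sigma_prime hr]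
  have h4' : (4 : ℝ) ≤ r := by exact_mod_cast h4
  have hu := g_upper hr
  have hM : (2 : ℝ) ^ (b + 1) ≤ r / 2 := by
    have : ((2 : ℝ) ^ (b + 2)) ≤ r := by exact_mod_cast h
    rw [pow_succ] at this
    linarith
  have hM0 : (1 : ℝ) ≤ 2 ^ (b + 1) := one_le_pow₀ (by norm_num)
  have hl := log_two_lower
  have hg0 : (0 : ℝ) ≤ (r : ℝ) * g r := by linarith [g_lower hr]
  have h1 : ((2 : ℝ) ^ (b + 1) - 1) * (r * g r) ≤ (r / 2 - 1) * ((r : ℝ) / ((r : ℝ) - 1)) := by
    apply mul_le_mul _ hu hg0 (by linarith)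
    linarith
  have h2 : (r / 2 - 1) * ((r : ℝ) / ((r : ℝ) - 1)) < (r + 1) * 0.69 := by
    rw [mul_div_assoc', div_lt_iff₀ (by linarith)]
    nlinarith
  have h3 : ((r : ℝ) + 1) * 0.69 ≤ (r + 1) * Real.log 2 := by
    apply mul_le_mul_of_nonneg_left hl.le (by linarith)
  linarith

lemma KL_neg_one (b : ℕ) : KL (2 ^ b * 1) < 0 := by
  rw [KL_two_pow_mul b 1 odd_one, G_one]
  simp
  exact log_two_pos

/-- `KL (2 ^ b * (p * q)) < 0` if `b < a` and `2 ^ a * p * q` is deficient, `p, q` large. -/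
lemma KL_neg_mul {b p q : ℕ} {M : ℝ} (hp : p.Prime) (hq : q.Prime) (hpq : p ≠ q)
    (hM : (2 : ℝ) ^ (b + 2) ≤ M) (h100 : 100 ≤ p) (h100' : 100 ≤ q) (hMp : M ≤ p)
    (hdef : M * ((p : ℝ) + q + 1) < (p + 1) * (q + 1)) : KL (2 ^ b * (p * q)) < 0 := by
  have hodd : Odd (p * q) :=
    Odd.mul (hp.odd_of_ne_two (by omega)) (hq.odd_of_ne_two (by omega))
  rw [KL_two_pow_mul b _ hodd, G_mul hp hq hpq, sigma_mul hp hq hpq]
  have hp' : (100 : ℝ) ≤ p := by exact_mod_cast h100
  have hq' : (100 : ℝ) ≤ q := by exact_mod_cast h100'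
  have hl := log_two_lower
  have hup := g_upper hp
  have huq := g_upper hq
  have hlp := g_lower hp
  have hlq := g_lower hq
  have hup' : (p : ℝ) * g p ≤ 1.02 := by
    refine hup.trans ?_
    rw [div_le_iff₀ (by linarith)]
    linarith
  have huq' : (q : ℝ) * g q ≤ 1.02 := by
    refine huq.trans ?_
    rw [div_le_iff₀ (by linarith)]
    linarith
  have hM1 : (2 : ℝ) ^ (b + 1) ≤ M / 2 := by
    rw [pow_succ] at hM
    linarith
  have hM0 : (1 : ℝ) ≤ 2 ^ (b + 1) := one_le_pow₀ (by norm_num)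
  have hsum : (p : ℝ) * (1 + q) * g p + q * (1 + p) * g q ≤ 1.02 * (p + q + 2) := by
    have e : (p : ℝ) * (1 + q) * g p + q * (1 + p) * g q
        = (1 + q) * (p * g p) + (1 + p) * (q * g q) := by ring
    rw [e]
    have a1 : (1 + (q : ℝ)) * (p * g p) ≤ (1 + q) * 1.02 :=
      mul_le_mul_of_nonneg_left hup' (by linarith)
    have a2 : (1 + (p : ℝ)) * (q * g q) ≤ (1 + p) * 1.02 :=
      mul_le_mul_of_nonneg_left huq' (by linarith)
    linarith
  have hsum0 : 0 ≤ (p : ℝ) * (1 + q) * g p + q * (1 + p) * g q := by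
    have e : (p : ℝ) * (1 + q) * g p + q * (1 + p) * g q
        = (1 + q) * (p * g p) + (1 + p) * (q * g q) := by ring
    rw [e]
    have a1 : 0 ≤ (1 + (q : ℝ)) * (p * g p) := mul_nonneg (by linarith) (by linarith)
    have a2 : 0 ≤ (1 + (p : ℝ)) * (q * g q) := mul_nonneg (by linarith) (by linarith)
    linarith
  have h1 : ((2 : ℝ) ^ (b + 1) - 1) * ((p : ℝ) * (1 + q) * g p + q * (1 + p) * g q)
      ≤ (M / 2) * (1.02 * (p + q + 2)) := by
    apply mul_le_mul _ hsum hsum0 (by linarith)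
    linarith
  have h2 : (M / 2) * (1.02 * ((p : ℝ) + q + 2)) < 0.69 * ((p + 1) * (q + 1)) := by
    have h3 : M * ((p : ℝ) + q + 2) < (p + 1) * (q + 1) + p := by linarith
    have h4 : (0.51 : ℝ) * ((p + 1) * (q + 1) + p) ≤ 0.69 * ((p + 1) * (q + 1)) := by
      nlinarith
    linarith
  have h3 : (0.69 : ℝ) * (((p : ℝ) + 1) * (q + 1)) ≤ ((p + 1) * (q + 1)) * Real.log 2 := by
    rw [mul_comm]
    apply mul_le_mul_of_nonneg_left hl.le (by positivity)
  linarith

/-- A divisor of a deficient number is deficient. -/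
lemma deficient_of_dvd {d n : ℕ} (hn : 0 < n) (hd : d ∣ n)
    (h : ∑ e ∈ n.divisors, e < 2 * n) : ∑ e ∈ d.divisors, e < 2 * d := by
  obtain ⟨k, rfl⟩ := hd
  have hk : 0 < k := Nat.pos_of_mul_pos_left hn
  have hinj : Set.InjOn (fun e => e * k) (d.divisors : Set ℕ) := by
    intro x _ y _ hxy
    exact Nat.eq_of_mul_eq_mul_right hk hxy
  have hsub : d.divisors.image (fun e => e * k) ⊆ (d * k).divisors := by
    intro x hx
    rw [Finset.mem_image] at hx
    obtain ⟨e, he, rfl⟩ := hx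
    rw [Nat.mem_divisors] at he ⊢
    exact ⟨Nat.mul_dvd_mul_right he.1 k, hn.ne'⟩
  have h1 : ∑ e ∈ d.divisors.image (fun e => e * k), e ≤ ∑ e ∈ (d * k).divisors, e :=
    Finset.sum_le_sum_of_subset hsub
  rw [Finset.sum_image hinj, ← Finset.sum_mul] at h1
  have h2 : (∑ e ∈ d.divisors, e) * k < 2 * d * k := by
    calc _ ≤ _ := h1
      _ < 2 * (d * k) := h
      _ = 2 * d * k := by ring
  exact Nat.lt_of_mul_lt_mul_right h2

/-- From a deficient `n = 2 ^ a * m` (with `m` odd) with `KL n ≥ 0` such that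
`KL (2 ^ b * m') < 0` for all `b < a` and `m' ∣ m`, get a deficient KL-primitive number
at least `2 ^ a`. -/
lemma exists_of (a m : ℕ) (hm : Odd m) (hdef : ∑ e ∈ (2 ^ a * m).divisors, e < 2 * (2 ^ a * m))
    (hKL : 0 ≤ KL (2 ^ a * m)) (hneg : ∀ b < a, ∀ m' : ℕ, m' ∣ m → KL (2 ^ b * m') < 0) :
    ∃ d : ℕ, 2 ^ a ≤ d ∧ ∑ e ∈ d.divisors, e < 2 * d ∧ KLPrimitive d := by
  classical
  have hm0 : 0 < m := hm.pos
  have hn0 : 0 < 2 ^ a * m := by positivity
  have hex : ∃ d : ℕ, d ∣ 2 ^ a * m ∧ 0 ≤ KL d := ⟨2 ^ a * m, dvd_rfl, hKL⟩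
  set d := Nat.find hex with hd
  have hspec := Nat.find_spec hex
  rw [← hd] at hspec
  have hdpos : 0 < d := Nat.pos_of_dvd_of_pos hspec.1 hn0
  refine ⟨d, ?_, deficient_of_dvd hn0 hspec.1 hdef, hdpos, hspec.2, ?_⟩
  · obtain ⟨x, y, hx, hy, hxy⟩ := exists_dvd_and_dvd_of_dvd_mul hspec.1
    obtain ⟨b, hb, rfl⟩ := (Nat.dvd_prime_pow Nat.prime_two).mp hx
    have hy0 : 0 < y := Nat.pos_of_dvd_of_pos hy hm0
    by_cases hba : b = a
    · rw [hxy, hba]
      exact Nat.le_mul_of_pos_right _ hy0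
    · exfalso
      have := hneg b (by omega) y hy
      rw [← hxy] at this
      linarith [hspec.2]
  · intro e he hlt
    by_contra hcon
    push Not at hcon
    exact Nat.find_min hex hlt ⟨he.trans hspec.1, hcon⟩

lemma sigma_two_pow_mul (a m : ℕ) (hm : Odd m) :
    ∑ e ∈ (2 ^ a * m).divisors, e = (2 ^ (a + 1) - 1) * ∑ e ∈ m.divisors, e := by
  have hcop : (2 ^ a).Coprime m := Nat.Coprime.pow_left a (Nat.coprime_two_left.mpr hm)
  rw [hcop.sum_divisors_mul, Nat.sum_divisors_prime_pow Nat.prime_two]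
  congr 1
  have := Nat.geomSum_eq (le_refl 2) (a + 1)
  rw [this]
  simp

/-- Main construction. -/
lemma main (a : ℕ) (ha : 7 ≤ a) :
    ∃ d : ℕ, 2 ^ a ≤ d ∧ ∑ e ∈ d.divisors, e < 2 * d ∧ KLPrimitive d := by
  set M : ℕ := 2 ^ (a + 1) with hMdef
  have hM256 : 256 ≤ M := by
    calc 256 = 2 ^ 8 := by norm_num
      _ ≤ 2 ^ (a + 1) := Nat.pow_le_pow_right (by norm_num) (by omega)
  have hMR : (2 : ℝ) ^ (a + 1) = (M : ℝ) := by rw [hMdef]; push_cast; ring
  have hM256' : (256 : ℝ) ≤ M := by exact_mod_cast hM256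
  obtain ⟨p, hp, hp1, hp2⟩ := Nat.exists_prime_lt_and_le_two_mul M (by omega)
  have hpodd : Odd p := hp.odd_of_ne_two (by omega)
  have hp1' : (M : ℝ) + 1 ≤ p := by exact_mod_cast hp1
  have hlu := log_two_upper
  have hlp := g_lower hp
  by_cases hA : 7 * (p + 1) ≤ 10 * (M - 1)
  · -- one prime is enough
    refine exists_of a p hpodd ?_ ?_ ?_
    · rw [sigma_two_pow_mul a p hpodd, ← hMdef, hp.sum_divisors]
      have e : 2 * (2 ^ a * p) = M * p := by rw [hMdef, pow_succ]; ring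
      rw [e]
      obtain ⟨M', hM'⟩ : ∃ M', M = M' + 1 := ⟨M - 1, by omega⟩
      rw [hM']
      simp only [Nat.add_sub_cancel]
      nlinarith
    · rw [KL_two_pow_mul a p hpodd, G_prime hp, sigma_prime hp, hMR]
      have hA' : 7 * ((p : ℝ) + 1) ≤ 10 * ((M : ℝ) - 1) := by
        have : ((7 * (p + 1) : ℕ) : ℝ) ≤ ((10 * (M - 1) : ℕ) : ℝ) := by exact_mod_cast hA
        push_cast [Nat.cast_sub (show 1 ≤ M by omega)] at this
        exact this
      have h1 : ((p : ℝ) + 1) * Real.log 2 ≤ (p + 1) * 0.7 :=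
        mul_le_mul_of_nonneg_left hlu.le (by linarith)
      have h2 : ((M : ℝ) - 1) * 1 ≤ (M - 1) * (p * g p) :=
        mul_le_mul_of_nonneg_left hlp (by linarith)
      linarith
    · intro b hb m' hm'
      rcases (Nat.dvd_prime hp).mp hm' with rfl | rfl
      · exact KL_neg_one b
      · apply KL_neg_prime hp
        have : 2 ^ (b + 2) ≤ 2 ^ (a + 1) := Nat.pow_le_pow_right (by norm_num) (by omega)
        omega
  · -- two primes
    push Not at hA
    have hpM : p + 1 ≤ 2 * M := by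
      have h1 : p ≠ 2 * M := by
        intro h
        rw [h] at hpodd
        exact (Nat.not_even_iff_odd.mpr hpodd) (even_two_mul M)
      omega
    set t : ℕ := M * p / (p + 1 - M) with ht
    have hDpos : 0 < p + 1 - M := by omega
    have ht1 : 2 * M - 1 ≤ t := by
      rw [ht, Nat.le_div_iff_mul_le hDpos]
      obtain ⟨c, hc⟩ : ∃ c, p = M + c := ⟨p - M, by omega⟩
      obtain ⟨M', hM'⟩ : ∃ M', M = M' + 1 := ⟨M - 1, by omega⟩
      have e1 : p + 1 - M = c + 1 := by omega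
      have e2 : 2 * M - 1 = 2 * M' + 1 := by omega
      rw [e1, e2, hc, hM']
      have hcM : c ≤ M' := by omega
      nlinarith
    obtain ⟨q, hq, hq1, hq2⟩ := Nat.exists_prime_lt_and_le_two_mul t (by omega)
    have hqp : p < q := by omega
    have hqodd : Odd q := hq.odd_of_ne_two (by omega)
    have hpq : p ≠ q := by omega
    -- real inequalities
    have hlq := g_lower hq
    have hp2' : (p : ℝ) + 1 ≤ 2 * M := by exact_mod_cast hpM
    have hA' : 10 * ((M : ℝ) - 1) < 7 * ((p : ℝ) + 1) := by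
      have : ((10 * (M - 1) : ℕ) : ℝ) < ((7 * (p + 1) : ℕ) : ℝ) := by exact_mod_cast hA
      push_cast [Nat.cast_sub (show 1 ≤ M by omega)] at this
      exact this
    have hD : ((p + 1 - M : ℕ) : ℝ) = (p : ℝ) + 1 - M := by
      rw [Nat.cast_sub (by omega)]; push_cast; ring
    have hDpos' : (0 : ℝ) < (p : ℝ) + 1 - M := by linarith
    -- deficiency: M * p < (q + 1) * (p + 1 - M)
    have hdefN : M * p < (q + 1) * (p + 1 - M) := by
      have h1 : M * p < (t + 1) * (p + 1 - M) := by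
        have := Nat.lt_div_mul_add hDpos (a := M * p)
        rw [← ht] at this
        calc M * p < t * (p + 1 - M) + (p + 1 - M) := this
          _ = (t + 1) * (p + 1 - M) := by ring
      calc M * p < (t + 1) * (p + 1 - M) := h1
        _ ≤ (q + 1) * (p + 1 - M) := Nat.mul_le_mul_right _ (by omega)
    have hdefR : (M : ℝ) * p < (q + 1) * (p + 1 - M) := by
      have : ((M * p : ℕ) : ℝ) < (((q + 1) * (p + 1 - M) : ℕ) : ℝ) := by exact_mod_cast hdefN
      push_cast [hD] at this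
      exact this
    have hdef : (M : ℝ) * ((p : ℝ) + q + 1) < (p + 1) * (q + 1) := by nlinarith
    -- upper bound for q
    have hqt : (q : ℝ) * ((p : ℝ) + 1 - M) ≤ 2 * (M * p) := by
      have h1 : t * (p + 1 - M) ≤ M * p := Nat.div_mul_le_self _ _
      have h2 : q * (p + 1 - M) ≤ 2 * (M * p) := by
        calc q * (p + 1 - M) ≤ 2 * t * (p + 1 - M) := Nat.mul_le_mul_right _ hq2
          _ = 2 * (t * (p + 1 - M)) := by ring
          _ ≤ 2 * (M * p) := by omega
      have : ((q * (p + 1 - M) : ℕ) : ℝ) ≤ ((2 * (M * p) : ℕ) : ℝ) := by exact_mod_cast h2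
      push_cast [hD] at this
      exact this
    -- KL ≥ 0 : (M - 1) * (P + Q) ≥ 0.7 * P * Q
    have hKL : 0.7 * (((p : ℝ) + 1) * (q + 1)) ≤ (M - 1) * (p + q + 2) := by
      -- multiply by p + 1 - M > 0
      have key : 0 ≤ ((M : ℝ) - 1) * (p + 1) * (p + 1 - M)
          - (0.7 * (p + 1) - (M - 1)) * ((q + 1) * (p + 1 - M)) := by
        have hQ : ((q : ℝ) + 1) * (p + 1 - M) ≤ 2 * (M * p) + (p + 1 - M) := by linarith
        have hnn : (0 : ℝ) ≤ 0.7 * (p + 1) - (M - 1) := by linarith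
        have h1 : (0.7 * ((p : ℝ) + 1) - (M - 1)) * ((q + 1) * (p + 1 - M))
            ≤ (0.7 * (p + 1) - (M - 1)) * (2 * (M * p) + (p + 1 - M)) :=
          mul_le_mul_of_nonneg_left hQ hnn
        have h2 : (0.7 * ((p : ℝ) + 1) - (M - 1)) * (2 * (M * p) + (p + 1 - M))
            ≤ ((M : ℝ) - 1) * (p + 1) * (p + 1 - M) := by
          -- set x = p, polynomial inequality for M ≤ p ≤ 2M - 1
          set x : ℝ := (p : ℝ) with hx
          set m : ℝ := (M : ℝ) with hm
          nlinarith [mul_nonneg (sub_nonneg.mpr hp2') (sub_nonneg.mpr hA'.le),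
            mul_nonneg (mul_nonneg (sub_nonneg.mpr hp2') (sub_nonneg.mpr hA'.le))
              (sub_nonneg.mpr hM256'),
            mul_nonneg (sub_nonneg.mpr hM256') (sub_nonneg.mpr hA'.le),
            mul_nonneg (sub_nonneg.mpr hM256') (sub_nonneg.mpr hp2'),
            mul_nonneg (sub_nonneg.mpr hM256') (sub_nonneg.mpr hp1')]
        linarith
      have e : ((M : ℝ) - 1) * (p + 1) * (p + 1 - M)
          - (0.7 * (p + 1) - (M - 1)) * ((q + 1) * (p + 1 - M))
          = ((M - 1) * (p + q + 2) - 0.7 * (((p : ℝ) + 1) * (q + 1))) * (p + 1 - M) := by ring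
      rw [e] at key
      have := nonneg_of_mul_nonneg_left key hDpos'
      linarith
    refine exists_of a (p * q) (hpodd.mul hqodd) ?_ ?_ ?_
    · rw [sigma_two_pow_mul a _ (hpodd.mul hqodd), ← hMdef,
        ((Nat.coprime_primes hp hq).mpr hpq).sum_divisors_mul, hp.sum_divisors, hq.sum_divisors]
      have e : 2 * (2 ^ a * (p * q)) = M * (p * q) := by rw [hMdef, pow_succ]; ring
      rw [e]
      have : (((M - 1) * ((p + 1) * (q + 1)) : ℕ) : ℝ) < ((M * (p * q) : ℕ) : ℝ) := by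
        push_cast [Nat.cast_sub (show 1 ≤ M by omega)]
        linarith
      exact_mod_cast this
    · rw [KL_two_pow_mul a _ (hpodd.mul hqodd), G_mul hp hq hpq, sigma_mul hp hq hpq, hMR]
      have h1 : (((p : ℝ) + 1) * (q + 1)) * Real.log 2 ≤ ((p + 1) * (q + 1)) * 0.7 :=
        mul_le_mul_of_nonneg_left hlu.le (by positivity)
      have h2 : (p : ℝ) + q + 2 ≤ (p : ℝ) * (1 + q) * g p + q * (1 + p) * g q := by
        have e : (p : ℝ) * (1 + q) * g p + q * (1 + p) * g q
            = (1 + q) * (p * g p) + (1 + p) * (q * g q) := by ring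
        rw [e]
        have a1 : (1 + (q : ℝ)) * 1 ≤ (1 + q) * (p * g p) :=
          mul_le_mul_of_nonneg_left hlp (by positivity)
        have a2 : (1 + (p : ℝ)) * 1 ≤ (1 + p) * (q * g q) :=
          mul_le_mul_of_nonneg_left hlq (by positivity)
        linarith
      have h3 : ((M : ℝ) - 1) * (p + q + 2)
          ≤ (M - 1) * ((p : ℝ) * (1 + q) * g p + q * (1 + p) * g q) :=
        mul_le_mul_of_nonneg_left h2 (by linarith)
      linarith
    · intro b hb m' hm'
      have hpow : 2 ^ (b + 2) ≤ M := Nat.pow_le_pow_right (by norm_num) (by omega)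
      obtain ⟨x, y, hx, hy, hxy⟩ := exists_dvd_and_dvd_of_dvd_mul hm'
      rcases (Nat.dvd_prime hp).mp hx with rfl | rfl <;>
        rcases (Nat.dvd_prime hq).mp hy with rfl | rfl
      · rw [hxy]; exact KL_neg_one b
      · rw [hxy, one_mul]; exact KL_neg_prime hq (by omega)
      · rw [hxy, mul_one]; exact KL_neg_prime hp (by omega)
      · rw [hxy]
        have hpowR : (2 : ℝ) ^ (b + 2) ≤ (M : ℝ) := by exact_mod_cast hpow
        exact KL_neg_mul hp hq hpq hpowR (by omega) (by omega) (by linarith) hdef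

/-- There are infinitely many positive integers that are both deficient
(`σ(n) < 2 n`) and KL-primitive. -/
theorem result :
    Set.Infinite {n : ℕ | ArithmeticFunction.sigma 1 n < 2 * n ∧ KLPrimitive n} := by
  rw [Set.infinite_iff_exists_gt]
  intro B
  obtain ⟨d, hd, hdef, hprim⟩ := main (B + 7) (by omega)
  refine ⟨d, ⟨?_, hprim⟩, ?_⟩
  · rw [ArithmeticFunction.sigma_one_apply]
    exact hdef
  · have : B + 7 < 2 ^ (B + 7) := Nat.lt_two_pow_self
    omega

end Pool.Agent.Results.MP_8dd099_nt.DeficientKLInfinite
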